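import Mathlib

/-!
# (I)-envelopes: the cover definition and the description by sequences
-/

namespace Pool.Agent.KS7_39.I58.R270.IenvBasic

open Set Filter Topology

section defs

variable {𝕜 X : Type*} [RCLike 𝕜] [NormedAddCommGroup X] [NormedSpace 𝕜 X]

/-- The weak* closure of a set of functionals. -/
def wcl (C : Set (StrongDual 𝕜 X)) : Set (StrongDual 𝕜 X) :=
  (fun ξ : StrongDual 𝕜 X => StrongDual.toWeakDual ξ) ⁻¹'
    closure ((fun ξ : StrongDual 𝕜 X => StrongDual.toWeakDual ξ) '' C)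

/-- For a sequence of sets of functionals, the norm closed convex hull of the union of
their weak* closed convex hulls. -/
def coverHull (F : ℕ → Set (StrongDual 𝕜 X)) : Set (StrongDual 𝕜 X) :=
  closure (convexHull ℝ (⋃ n, wcl (convexHull ℝ (F n))))

/-- The (I)-envelope of `A`. -/
def Ienv (A : Set (StrongDual 𝕜 X)) : Set (StrongDual 𝕜 X) :=
  {η | ∀ F : ℕ → Set (StrongDual 𝕜 X), (⋃ n, F n) = A → η ∈ coverHull F}

end defs

section easy

variable {𝕜 X : Type*} [RCLike 𝕜] [NormedAddCommGroup X] [NormedSpace 𝕜 X]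

/-- If `x n` is a sequence in the unit ball with `Re ξ(x n) ≤ Re η(x n) - s` eventually for every
`ξ ∈ A` then for some countable cover of `A` the corresponding hull has distance at least `s`
from `η`. -/
lemma exists_cover (A : Set (StrongDual 𝕜 X)) (η : StrongDual 𝕜 X) (s : ℝ) (x : ℕ → X)
    (hx : ∀ n, ‖x n‖ ≤ 1)
    (h : ∀ ξ ∈ A, ∀ᶠ n in atTop, RCLike.re (ξ (x n)) ≤ RCLike.re (η (x n)) - s) :
    ∃ F : ℕ → Set (StrongDual 𝕜 X), (⋃ n, F n) = A ∧ ∀ ζ ∈ coverHull F, s ≤ ‖η - ζ‖ := by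
  set C : ℕ → Set (StrongDual 𝕜 X) := fun m =>
    {ξ | ∀ n, m ≤ n → RCLike.re (ξ (x n)) ≤ RCLike.re (η (x n)) - s} with hC
  have hCconv : ∀ m, Convex ℝ (C m) := by
    intro m ξ hξ ζ hζ a b ha hb hab n hn
    have h1 := hξ n hn
    have h2 := hζ n hn
    have e : RCLike.re ((a • ξ + b • ζ) (x n)) =
        a * RCLike.re (ξ (x n)) + b * RCLike.re (ζ (x n)) := by
      simp [RCLike.smul_re]
    rw [e]
    calc a * RCLike.re (ξ (x n)) + b * RCLike.re (ζ (x n))
        ≤ a * (RCLike.re (η (x n)) - s) + b * (RCLike.re (η (x n)) - s) := by gcongr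
      _ = (a + b) * (RCLike.re (η (x n)) - s) := by ring
      _ = _ := by rw [hab, one_mul]
  have hCmono : Monotone C := fun m n hmn ξ hξ k hk => hξ k (hmn.trans hk)
  have hCcl : ∀ m, wcl (C m) ⊆ C m := by
    intro m ξ hξ n hn
    have hcl : IsClosed {ζ : WeakDual 𝕜 X | RCLike.re (ζ (x n)) ≤ RCLike.re (η (x n)) - s} :=
      isClosed_le (RCLike.continuous_re.comp (WeakDual.eval_continuous (x n))) continuous_const
    have hsub : (fun ξ : StrongDual 𝕜 X => StrongDual.toWeakDual ξ) '' C m ⊆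
        {ζ : WeakDual 𝕜 X | RCLike.re (ζ (x n)) ≤ RCLike.re (η (x n)) - s} := by
      rintro _ ⟨ζ, hζ, rfl⟩
      exact hζ n hn
    exact closure_minimal hsub hcl hξ
  refine ⟨fun m => A ∩ C m, ?_, ?_⟩
  · ext ξ
    simp only [mem_iUnion, mem_inter_iff]
    constructor
    · rintro ⟨m, hm, -⟩
      exact hm
    · intro hξ
      obtain ⟨m, hm⟩ := eventually_atTop.1 (h ξ hξ)
      exact ⟨m, hξ, fun n hn => hm n hn⟩
  · intro ζ hζ
    refine le_of_forall_pos_le_add fun ε hε => ?_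
    obtain ⟨ζ', hζ', hd⟩ := Metric.mem_closure_iff.1 hζ ε hε
    have hUconv : Convex ℝ (⋃ m, C m) :=
      (directed_of_isDirected_le hCmono).convex_iUnion hCconv
    have hsub : (⋃ n, wcl (convexHull ℝ (A ∩ C n))) ⊆ ⋃ m, C m := by
      refine iUnion_mono fun m => ?_
      refine Subset.trans ?_ (hCcl m)
      exact preimage_mono (closure_mono (image_mono
        (convexHull_min inter_subset_right (hCconv m))))
    have hmem := convexHull_min hsub hUconv hζ'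
    obtain ⟨m, hm⟩ := mem_iUnion.1 hmem
    have h1 := hm m le_rfl
    have h2 : RCLike.re ((η - ζ') (x m)) ≤ ‖η - ζ'‖ := by
      calc RCLike.re ((η - ζ') (x m)) ≤ ‖(η - ζ') (x m)‖ := RCLike.re_le_norm _
        _ ≤ ‖η - ζ'‖ * ‖x m‖ := (η - ζ').le_opNorm _
        _ ≤ ‖η - ζ'‖ * 1 := by gcongr; exact hx m
        _ = ‖η - ζ'‖ := mul_one _
    have h3 : RCLike.re ((η - ζ') (x m)) = RCLike.re (η (x m)) - RCLike.re (ζ' (x m)) := by
      rw [sub_apply, map_sub]
    have h4 : ‖η - ζ'‖ ≤ ‖η - ζ‖ + ε := by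
      calc ‖η - ζ'‖ = ‖(η - ζ) + (ζ - ζ')‖ := by congr 1; abel
        _ ≤ ‖η - ζ‖ + ‖ζ - ζ'‖ := norm_add_le _ _
        _ ≤ ‖η - ζ‖ + ε := by
            rw [dist_eq_norm] at hd
            linarith
    linarith

/-- Elements of the (I)-envelope satisfy the sequence inequality. -/
lemma Ienv_seq {A : Set (StrongDual 𝕜 X)} {η : StrongDual 𝕜 X} (hη : η ∈ Ienv A) (s : ℝ)
    (hs : 0 < s) (x : ℕ → X) (hx : ∀ n, ‖x n‖ ≤ 1)
    (h : ∀ ξ ∈ A, ∀ᶠ n in atTop, RCLike.re (ξ (x n)) ≤ RCLike.re (η (x n)) - s) : False := by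
  obtain ⟨F, hF, hF2⟩ := exists_cover A η s x hx h
  have := hF2 η (hη F hF)
  rw [sub_self, norm_zero] at this
  linarith

end easy

section hull

variable {E : Type*} [AddCommGroup E] [Module ℝ E] [TopologicalSpace E] [ContinuousAdd E]
  [ContinuousSMul ℝ E]

lemma isCompact_convexJoin {s t : Set E} (hs : IsCompact s) (ht : IsCompact t) :
    IsCompact (convexJoin ℝ s t) := by
  have h1 : convexJoin ℝ s t =
      (fun z : (E × E) × ℝ => (1 - z.2) • z.1.1 + z.2 • z.1.2) '' ((s ×ˢ t) ×ˢ Icc (0 : ℝ) 1) := by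
    ext z
    rw [mem_convexJoin]
    constructor
    · rintro ⟨a, ha, b, hb, hz⟩
      rw [segment_eq_image] at hz
      obtain ⟨θ, hθ, rfl⟩ := hz
      exact ⟨((a, b), θ), ⟨⟨ha, hb⟩, hθ⟩, rfl⟩
    · rintro ⟨⟨⟨a, b⟩, θ⟩, ⟨⟨ha, hb⟩, hθ⟩, rfl⟩
      refine ⟨a, ha, b, hb, ?_⟩
      rw [segment_eq_image]
      exact ⟨θ, hθ, rfl⟩
  rw [h1]
  refine ((hs.prod ht).prod isCompact_Icc).image ?_
  fun_prop

lemma exists_compact_hull (W : ℕ → Set E) (k : ℕ) (hc : ∀ j, j < k → IsCompact (W j))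
    (hconv : ∀ j, j < k → Convex ℝ (W j)) :
    ∃ M : Set E, IsCompact M ∧ Convex ℝ M ∧ (∀ j, j < k → W j ⊆ M) ∧
      M ⊆ convexHull ℝ (⋃ j, W j) := by
  induction k with
  | zero => exact ⟨∅, isCompact_empty, convex_empty, fun j hj => absurd hj (Nat.not_lt_zero j),
      empty_subset _⟩
  | succ k ih =>
    obtain ⟨M, hM1, hM2, hM3, hM4⟩ := ih (fun j hj => hc j (hj.trans (Nat.lt_succ_self k)))
      (fun j hj => hconv j (hj.trans (Nat.lt_succ_self k)))
    rcases M.eq_empty_or_nonempty with hMe | hMne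
    · refine ⟨W k, hc k (Nat.lt_succ_self k), hconv k (Nat.lt_succ_self k), fun j hj => ?_,
        (subset_iUnion W k).trans (subset_convexHull ℝ _)⟩
      rcases Nat.lt_succ_iff_lt_or_eq.1 hj with h | h
      · have := hM3 j h
        rw [hMe] at this
        exact this.trans (empty_subset _)
      · rw [h]
    · rcases (W k).eq_empty_or_nonempty with hWe | hWne
      · refine ⟨M, hM1, hM2, fun j hj => ?_, hM4⟩
        rcases Nat.lt_succ_iff_lt_or_eq.1 hj with h | h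
        · exact hM3 j h
        · rw [h, hWe]; exact empty_subset _
      · refine ⟨convexJoin ℝ M (W k), isCompact_convexJoin hM1 (hc k (Nat.lt_succ_self k)),
          hM2.convexJoin (hconv k (Nat.lt_succ_self k)), fun j hj => ?_, ?_⟩
        · rcases Nat.lt_succ_iff_lt_or_eq.1 hj with h | h
          · exact (hM3 j h).trans (subset_convexJoin_left hWne)
          · rw [h]; exact subset_convexJoin_right hMne
        · exact convexJoin_subset hM4 ((subset_iUnion W k).trans (subset_convexHull ℝ _))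
            (convex_convexHull ℝ _)

end hull

section abstr

variable {𝕜 X : Type*} [RCLike 𝕜] [NormedAddCommGroup X] [NormedSpace 𝕜 X]
variable {E : Type*} [AddCommGroup E] [Module ℝ E] [TopologicalSpace E] [IsTopologicalAddGroup E]
  [ContinuousSMul ℝ E] [LocallyConvexSpace ℝ E] [T2Space E] (e : StrongDual 𝕜 X ≃ₗ[ℝ] E)

lemma sep_of_dist (hball : ∀ (η : StrongDual 𝕜 X) (r : ℝ), IsCompact (e '' Metric.closedBall η r))
    (heval : ∀ f : StrongDual ℝ E, ∃ x : X, ∀ ξ, f (e ξ) = RCLike.re (ξ x))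
    (M : Set E) (hM : Convex ℝ M) (hMc : IsCompact M)
    (η : StrongDual 𝕜 X) (r : ℝ) (hr : 0 < r)
    (hdist : ∀ ξ : StrongDual 𝕜 X, e ξ ∈ M → r < ‖η - ξ‖) :
    ∃ x : X, ‖x‖ ≤ 1 ∧ ∀ ξ : StrongDual 𝕜 X, e ξ ∈ M → r ≤ RCLike.re ((η - ξ) x) := by
  rcases M.eq_empty_or_nonempty with hMe | ⟨ζ0, hζ0⟩
  · exact ⟨0, by simp, fun ξ hξ => by rw [hMe] at hξ; exact absurd hξ (notMem_empty _)⟩
  set L : Set E := e '' Metric.closedBall η r with hL
  have hLconv : Convex ℝ L := (convex_closedBall η r).linear_image e.toLinearMap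
  have hLcomp : IsCompact L := hball η r
  have hdisj : Disjoint M L := by
    rw [Set.disjoint_left]
    rintro _ hξM ⟨ξ, hξ, rfl⟩
    have h1 := hdist ξ hξM
    rw [mem_closedBall_iff_norm, norm_sub_rev] at hξ
    linarith
  obtain ⟨f, u, v, hf1, huv, hf2⟩ :=
    geometric_hahn_banach_compact_closed hM hMc hLconv hLcomp.isClosed hdisj
  obtain ⟨x, hx⟩ := heval f
  have hkey : ∀ ξ : StrongDual 𝕜 X, e ξ ∈ M →
      RCLike.re (ξ x) < RCLike.re (η x) - r * ‖x‖ := by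
    intro ξ hξ
    obtain ⟨g, hg1, hg2⟩ := exists_dual_vector'' 𝕜 x
    have hb : e (η - r • g) ∈ L := by
      refine ⟨η - r • g, ?_, rfl⟩
      rw [mem_closedBall_iff_norm, sub_sub_cancel_left, norm_neg, norm_smul, Real.norm_eq_abs,
        abs_of_pos hr]
      calc r * ‖g‖ ≤ r * 1 := by gcongr
        _ = r := mul_one r
    have h1 := hf1 _ hξ
    have h2 := hf2 _ hb
    rw [hx] at h1 h2
    have h3 : RCLike.re ((η - r • g) x) = RCLike.re (η x) - r * ‖x‖ := by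
      rw [sub_apply, smul_apply, hg2, map_sub, RCLike.smul_re, RCLike.ofReal_re]
    rw [h3] at h2
    linarith
  have hxne : x ≠ 0 := by
    rintro rfl
    obtain ⟨ξ0, rfl⟩ := e.surjective ζ0
    have := hkey ξ0 hζ0
    simp at this
  have hxn : 0 < ‖x‖ := norm_pos_iff.2 hxne
  refine ⟨((‖x‖⁻¹ : ℝ) : 𝕜) • x, ?_, fun ξ hξ => ?_⟩
  · rw [norm_smul, RCLike.norm_ofReal, abs_of_pos (inv_pos.2 hxn), inv_mul_cancel₀ hxn.ne']
  · have h1 := hkey ξ hξ
    rw [map_smul, smul_eq_mul, RCLike.re_ofReal_mul, sub_apply, map_sub, inv_mul_eq_div,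
      le_div_iff₀ hxn]
    linarith

/-- Abstract form of the separation by a sequence. -/
lemma abstract_seq
    (hball : ∀ (η : StrongDual 𝕜 X) (r : ℝ), IsCompact (e '' Metric.closedBall η r))
    (heval : ∀ f : StrongDual ℝ E, ∃ x : X, ∀ ξ, f (e ξ) = RCLike.re (ξ x))
    (η : StrongDual 𝕜 X) (F : ℕ → Set (StrongDual 𝕜 X))
    (hη : η ∉ closure (convexHull ℝ (⋃ n, e ⁻¹' closure (e '' convexHull ℝ (F n))))) :
    ∃ ε : ℝ, 0 < ε ∧ ∃ x : ℕ → X, (∀ n, ‖x n‖ ≤ 1) ∧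
      ∀ ξ ∈ ⋃ n, F n, ∀ᶠ n in atTop, RCLike.re (ξ (x n)) ≤ RCLike.re (η (x n)) - ε := by
  rw [Metric.mem_closure_iff] at hη
  push Not at hη
  obtain ⟨r, hr, hdist⟩ := hη
  refine ⟨r / 2, by positivity, ?_⟩
  have hstep : ∀ k : ℕ, ∃ x : X, ‖x‖ ≤ 1 ∧ ∀ j, j < k → ∀ ξ ∈ F j, ‖ξ‖ ≤ k →
      r / 2 ≤ RCLike.re ((η - ξ) x) := by
    intro k
    set W : ℕ → Set E := fun j =>
      closure (e '' convexHull ℝ (F j ∩ Metric.closedBall 0 (k : ℝ))) with hW
    have hWconv : ∀ j, Convex ℝ (W j) := fun j =>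
      ((convex_convexHull ℝ _).linear_image e.toLinearMap).closure
    have hWcomp : ∀ j, IsCompact (W j) := by
      intro j
      refine (hball 0 k).of_isClosed_subset isClosed_closure ?_
      refine closure_minimal (image_mono ?_) (hball 0 k).isClosed
      exact convexHull_min inter_subset_right (convex_closedBall _ _)
    obtain ⟨M, hM1, hM2, hM3, hM4⟩ := exists_compact_hull W k (fun j _ => hWcomp j)
      (fun j _ => hWconv j)
    have hMdist : ∀ ξ : StrongDual 𝕜 X, e ξ ∈ M → r / 2 < ‖η - ξ‖ := by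
      intro ξ hξ
      have h1 : e ξ ∈ convexHull ℝ (⋃ j, W j) := hM4 hξ
      have h2 : (⋃ j, W j) ⊆
          e.toLinearMap '' (⋃ n, e ⁻¹' closure (e '' convexHull ℝ (F n))) := by
        refine iUnion_subset fun j ζ hζ => ?_
        obtain ⟨ζ', rfl⟩ := e.surjective ζ
        refine ⟨ζ', mem_iUnion.2 ⟨j, ?_⟩, rfl⟩
        exact closure_mono (image_mono (convexHull_mono inter_subset_left)) hζ
      have h3 := convexHull_mono (𝕜 := ℝ) h2 h1
      rw [← LinearMap.image_convexHull] at h3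
      obtain ⟨ζ, hζ, hζ2⟩ := h3
      have h4 : ζ = ξ := e.injective hζ2
      rw [h4] at hζ
      have h5 := hdist ξ hζ
      rw [dist_eq_norm] at h5
      linarith
    obtain ⟨x, hx1, hx2⟩ := sep_of_dist e hball heval M hM2 hM1 η (r / 2) (by positivity) hMdist
    refine ⟨x, hx1, fun j hj ξ hξ hξk => hx2 ξ ?_⟩
    refine hM3 j hj (subset_closure ⟨ξ, subset_convexHull ℝ _ ⟨hξ, ?_⟩, rfl⟩)
    rw [mem_closedBall_zero_iff]
    exact hξk
  choose x hx1 hx2 using hstep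
  refine ⟨x, hx1, fun ξ hξ => ?_⟩
  obtain ⟨j, hj⟩ := mem_iUnion.1 hξ
  obtain ⟨N, hN⟩ := exists_nat_ge ‖ξ‖
  filter_upwards [eventually_ge_atTop (max (j + 1) N)] with k hk
  have h1 := hx2 k j (lt_of_lt_of_le (Nat.lt_succ_self j) ((le_max_left _ _).trans hk)) ξ hj
    (hN.trans (by exact_mod_cast (le_max_right _ _).trans hk))
  rw [sub_apply, map_sub] at h1
  linarith

end abstr

section hard

variable {𝕜 X : Type*} [RCLike 𝕜] [NormedAddCommGroup X] [NormedSpace 𝕜 X]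

theorem ist : IsScalarTower ℝ 𝕜 (WeakDual 𝕜 X) :=
  inferInstanceAs (IsScalarTower ℝ 𝕜 (StrongDual 𝕜 X))

theorem lcs : LocallyConvexSpace ℝ (WeakDual 𝕜 X) :=
  inferInstanceAs (LocallyConvexSpace ℝ (WeakBilin (topDualPairing 𝕜 X)))

lemma exists_eval (f : StrongDual 𝕜 (WeakDual 𝕜 X)) : ∃ x : X, ∀ ξ, f ξ = ξ x := by
  obtain ⟨x, hx⟩ := LinearMap.dualEmbedding_surjective (topDualPairing 𝕜 X) f
  exact ⟨x, fun ξ => by rw [← hx]; rfl⟩

lemma exists_eval_real (f : StrongDual ℝ (WeakDual 𝕜 X)) :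
    ∃ x : X, ∀ ξ, f ξ = RCLike.re (ξ x) := by
  have := ist (𝕜 := 𝕜) (X := X)
  obtain ⟨x, hx⟩ := exists_eval (StrongDual.extendRCLike (𝕜 := 𝕜) f)
  refine ⟨x, fun ξ => ?_⟩
  rw [← hx]
  simp

/-- The identity as a real linear equivalence. -/
noncomputable def toW : StrongDual 𝕜 X ≃ₗ[ℝ] WeakDual 𝕜 X where
  toFun ξ := StrongDual.toWeakDual ξ
  invFun ξ := WeakDual.toStrongDual ξ
  map_add' _ _ := rfl
  map_smul' _ _ := rfl
  left_inv _ := rfl
  right_inv _ := rfl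

lemma isCompact_ball (η : StrongDual 𝕜 X) (r : ℝ) : IsCompact (toW '' Metric.closedBall η r) := by
  have hLeq : toW '' Metric.closedBall η r = WeakDual.toStrongDual ⁻¹' Metric.closedBall η r := by
    ext ξ
    constructor
    · rintro ⟨ζ, hζ, rfl⟩
      exact hζ
    · intro hξ
      exact ⟨WeakDual.toStrongDual ξ, hξ, rfl⟩
  rw [hLeq]
  exact WeakDual.isCompact_closedBall η r

/-- If `η` is not in the (I)-envelope of `A` then it is separated from `A` by a sequence. -/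
lemma exists_seq_of_notMem {A : Set (StrongDual 𝕜 X)} {η : StrongDual 𝕜 X} (hη : η ∉ Ienv A) :
    ∃ ε : ℝ, 0 < ε ∧ ∃ x : ℕ → X, (∀ n, ‖x n‖ ≤ 1) ∧
      ∀ ξ ∈ A, ∀ᶠ n in atTop, RCLike.re (ξ (x n)) ≤ RCLike.re (η (x n)) - ε := by
  unfold Ienv at hη
  simp only [mem_ofPred_eq, not_forall] at hη
  obtain ⟨F, hF, hη⟩ := hη
  rw [← hF]
  have h1 := lcs (𝕜 := 𝕜) (X := X)
  exact abstract_seq (E := WeakDual 𝕜 X) toW isCompact_ball (fun f => by
    obtain ⟨x, hx⟩ := exists_eval_real f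
    exact ⟨x, fun ξ => hx _⟩) η F hη

/-- Monotonicity. -/
lemma Ienv_mono {A B : Set (StrongDual 𝕜 X)} (h : A ⊆ B) : Ienv A ⊆ Ienv B := by
  intro η hη
  by_contra hcon
  obtain ⟨ε, hε, x, hx, h2⟩ := exists_seq_of_notMem hcon
  exact Ienv_seq hη ε hε x hx fun ξ hξ => h2 ξ (h hξ)

/-- The set is contained in its (I)-envelope. -/
lemma subset_Ienv (A : Set (StrongDual 𝕜 X)) : A ⊆ Ienv A := by
  intro η hη
  by_contra hcon
  obtain ⟨ε, hε, x, hx, h2⟩ := exists_seq_of_notMem hcon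
  obtain ⟨n, hn⟩ := (h2 η hη).exists
  linarith

end hard

end Pool.Agent.KS7_39.I58.R270.IenvBasic
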