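import Pool.Agent.KS7_39.I58.R270.IenvBasic

/-!
# Functionals on real `ℓ₁(ι)` and a Baire category lemma
-/

namespace Pool.Agent.KS7_39.I58.R270.L1

open Set Filter Topology
open scoped ENNReal

section ell

variable {ι : Type*}

variable (ι) in
/-- The real Banach space `ℓ₁(ι)`. -/
abbrev X : Type _ := lp (fun _ : ι => ℝ) 1

/-- The unit vectors. -/
noncomputable def e (i : ι) : X ι := by
  classical
  exact lp.single 1 i (1 : ℝ)

lemma norm_e (i : ι) : ‖(e i : X ι)‖ = 1 := by
  classical
  unfold e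
  rw [lp.norm_single one_pos, norm_one]

lemma summable_norm (x : X ι) : Summable fun i => |x i| := by
  have := (lp.memℓp x).summable (by simp)
  simpa using this

lemma norm_eq (x : X ι) : ‖x‖ = ∑' i, |x i| := by
  have := lp.norm_eq_tsum_rpow (p := 1) (by simp) x
  simpa using this

lemma summable_mul (b : ι → ℝ) (C : ℝ) (hb : ∀ i, |b i| ≤ C) (x : X ι) :
    Summable fun i => b i * x i := by
  refine Summable.of_norm_bounded ((summable_norm x).mul_left C) fun i => ?_
  rw [Real.norm_eq_abs, abs_mul]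
  exact mul_le_mul_of_nonneg_right (hb i) (abs_nonneg _)

/-- The functional defined by a bounded function. -/
noncomputable def fn (b : ι → ℝ) (C : ℝ) (hb : ∀ i, |b i| ≤ C) : StrongDual ℝ (X ι) :=
  LinearMap.mkContinuous
    { toFun := fun x => ∑' i, b i * x i
      map_add' := fun x y => by
        have h : ∀ i, b i * (x + y : X ι) i = b i * x i + b i * y i := fun i => by
          rw [lp.coeFn_add, Pi.add_apply, mul_add]
        simp only [h]
        exact (summable_mul b C hb x).tsum_add (summable_mul b C hb y)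
      map_smul' := fun c x => by
        have h : ∀ i, b i * (c • x : X ι) i = c * (b i * x i) := fun i => by
          rw [lp.coeFn_smul, Pi.smul_apply, smul_eq_mul]; ring
        simp only [h, RingHom.id_apply, smul_eq_mul]
        exact tsum_mul_left } C
    (fun x => by
      simp only [LinearMap.coe_mk, AddHom.coe_mk]
      rw [norm_eq, ← tsum_mul_left]
      refine tsum_of_norm_bounded ((summable_norm x).mul_left C).hasSum fun i => ?_
      rw [Real.norm_eq_abs, abs_mul]
      exact mul_le_mul_of_nonneg_right (hb i) (abs_nonneg _))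

lemma fn_apply (b : ι → ℝ) (C : ℝ) (hb : ∀ i, |b i| ≤ C) (x : X ι) :
    fn b C hb x = ∑' i, b i * x i := rfl

lemma fn_e (b : ι → ℝ) (C : ℝ) (hb : ∀ i, |b i| ≤ C) (i : ι) : fn b C hb (e i) = b i := by
  classical
  rw [fn_apply, tsum_eq_single i]
  · unfold e
    simp
  · intro j hj
    unfold e
    simp [lp.single_apply, Pi.single_eq_of_ne hj]

lemma hasSum_e (x : X ι) : HasSum (fun i => x i • (e i : X ι)) x := by
  classical
  have h := lp.hasSum_single (E := fun _ : ι => ℝ) (p := 1) ENNReal.one_ne_top x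
  have h2 : (fun i => x i • (e i : X ι)) = fun i => lp.single 1 i (x i) := by
    funext i
    unfold e
    rw [← lp.single_smul, smul_eq_mul, mul_one]
  rw [h2]
  exact h

/-- The norm of a functional is at most the supremum of its values at the unit vectors. -/
lemma norm_le (f : StrongDual ℝ (X ι)) (C : ℝ) (hC : 0 ≤ C) (h : ∀ i, |f (e i)| ≤ C) :
    ‖f‖ ≤ C := by
  refine f.opNorm_le_bound hC fun x => ?_
  have h1 : HasSum (fun i => x i * f (e i)) (f x) := by
    have := f.hasSum (hasSum_e x)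
    simpa using this
  rw [← h1.tsum_eq, norm_eq, ← tsum_mul_left]
  refine tsum_of_norm_bounded ((summable_norm x).mul_left C).hasSum fun i => ?_
  rw [Real.norm_eq_abs, abs_mul, mul_comm]
  exact mul_le_mul_of_nonneg_right (h i) (abs_nonneg _)

lemma abs_le_norm (f : StrongDual ℝ (X ι)) (i : ι) : |f (e i)| ≤ ‖f‖ := by
  have := f.le_opNorm (e i)
  rwa [norm_e, mul_one] at this

lemma eq_of (f g : StrongDual ℝ (X ι)) (h : ∀ i, f (e i) = g (e i)) : f = g := by
  have : ‖f - g‖ ≤ 0 := norm_le _ 0 le_rfl fun i => by simp [h]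
  exact sub_eq_zero.1 (norm_le_zero_iff.1 this)

/-- Bounded pointwise convergence implies weak* convergence. -/
lemma tendsto_fn (b : ℕ → ι → ℝ) (c : ι → ℝ) (C : ℝ) (hb : ∀ p i, |b p i| ≤ C)
    (hc : ∀ i, |c i| ≤ C) (h : ∀ i, Tendsto (fun p => b p i) atTop (𝓝 (c i))) (x : X ι) :
    Tendsto (fun p => fn (b p) C (hb p) x) atTop (𝓝 (fn c C hc x)) := by
  simp only [fn_apply]
  refine tendsto_tsum_of_dominated_convergence ((summable_norm x).mul_left C) (fun i => ?_) ?_
  · exact (h i).mul_const _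
  · refine Eventually.of_forall fun p i => ?_
    rw [Real.norm_eq_abs, abs_mul]
    exact mul_le_mul_of_nonneg_right (hb p i) (abs_nonneg _)

end ell

section wstar

variable {𝕜 X : Type*} [RCLike 𝕜] [NormedAddCommGroup X] [NormedSpace 𝕜 X]

open IenvBasic in
/-- Weak* limits of sequences belong to the weak* closure. -/
lemma mem_wcl_of_tendsto (S : Set (StrongDual 𝕜 X)) (ξ : ℕ → StrongDual 𝕜 X) (hξ : ∀ p, ξ p ∈ S)
    (ζ : StrongDual 𝕜 X) (h : ∀ x, Tendsto (fun p => ξ p x) atTop (𝓝 (ζ x))) : ζ ∈ wcl S := by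
  have h1 : Tendsto (fun p => (StrongDual.toWeakDual (ξ p) : WeakDual 𝕜 X)) atTop
      (𝓝 (StrongDual.toWeakDual ζ : WeakDual 𝕜 X)) := by
    rw [tendsto_iff_forall_eval_tendsto_topDualPairing]
    exact h
  have h2 : (StrongDual.toWeakDual ζ : WeakDual 𝕜 X) ∈
      closure ((fun ξ : StrongDual 𝕜 X => (StrongDual.toWeakDual ξ : WeakDual 𝕜 X)) '' S) :=
    mem_closure_of_tendsto h1 (Eventually.of_forall fun p => ⟨ξ p, hξ p, rfl⟩)
  exact h2

end wstar

/-- The Baire category lemma. -/
lemma baire {D κ : Type*} [Countable D] [Countable κ] (P : κ → Set (D → ℕ))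
    (hP : ⋃ k, P k = univ) :
    ∃ (k : κ) (s : D → ℕ) (E : Finset D), ∀ (g : D → ℕ) (E' : Finset D),
      (∀ d ∈ E, g d = s d) → ∃ α ∈ P k, (∀ d ∈ E, α d = s d) ∧ ∀ d ∈ E', α d = g d := by
  classical
  obtain ⟨k, s, hs⟩ := nonempty_interior_of_iUnion_of_closed (f := fun k => closure (P k))
    (fun k => isClosed_closure) (by
      rw [eq_univ_iff_forall]
      intro α
      have : α ∈ ⋃ k, P k := by rw [hP]; exact mem_univ α
      obtain ⟨k, hk⟩ := mem_iUnion.1 this
      exact mem_iUnion.2 ⟨k, subset_closure hk⟩)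
  obtain ⟨E, u, hu, hsub⟩ := isOpen_pi_iff.1 isOpen_interior s hs
  refine ⟨k, s, E, fun g E' hg => ?_⟩
  have hgmem : g ∈ closure (P k) := by
    apply interior_subset
    apply hsub
    intro d hd
    rw [hg d hd]
    exact (hu d hd).2
  have hopen : IsOpen {α : D → ℕ | ∀ d ∈ E ∪ E', α d = g d} := by
    have : {α : D → ℕ | ∀ d ∈ E ∪ E', α d = g d} =
        ((E ∪ E' : Finset D) : Set D).pi fun d => {g d} := by
      ext α
      simp [Set.mem_pi]
    rw [this]
    exact isOpen_set_pi (Finset.finite_toSet _) fun d _ => isOpen_discrete _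
  obtain ⟨α, hα1, hα2⟩ := mem_closure_iff.1 hgmem _ hopen (fun d _ => rfl)
  refine ⟨α, hα2, fun d hd => ?_, fun d hd => ?_⟩
  · rw [hα1 d (Finset.mem_union_left _ hd), hg d hd]
  · exact hα1 d (Finset.mem_union_right _ hd)

end Pool.Agent.KS7_39.I58.R270.L1
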